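import Pool.Agent.helper91.SI.Spec

/-!
# Project SI (MP_ee5996_co), row PAB: i-sets of a path
-/

set_option autoImplicit false

namespace Pool.Agent.helper91.SI

open Pool.Agent.helper20.IG (IsIndepDom IsISet iGraph)

theorem PAB : PAB_stmt := by
  intro n k hnk hk hn S hS
  obtain ⟨⟨hind, hdom⟩, hmin⟩ := hS
  -- the standard set
  have hD : IsIndepDom (SimpleGraph.pathGraph n)
      (Finset.univ.filter fun x : Fin n => x.val % 3 = 1) := by
    constructor
    · intro u hu v hv h
      rw [Finset.mem_filter] at hu hv
      rw [SimpleGraph.pathGraph_adj] at h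
      omega
    · intro v hv
      rw [Finset.mem_filter] at hv
      have hv2 : ¬ v.val % 3 = 1 := fun h => hv ⟨Finset.mem_univ _, h⟩
      have h3 := v.isLt
      rcases (by omega : v.val % 3 = 0 ∨ v.val % 3 = 2) with h | h
      · refine ⟨⟨v.val + 1, by omega⟩, ?_, ?_⟩
        · rw [Finset.mem_filter]
          exact ⟨Finset.mem_univ _, by simp only; omega⟩
        · rw [SimpleGraph.pathGraph_adj]
          right; rfl
      · refine ⟨⟨v.val - 1, by omega⟩, ?_, ?_⟩
        · rw [Finset.mem_filter]
          exact ⟨Finset.mem_univ _, by simp only; omega⟩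
        · rw [SimpleGraph.pathGraph_adj]
          left; simp only; omega
  have hDc : (Finset.univ.filter fun x : Fin n => x.val % 3 = 1).card ≤ k := by
    have h1 : (Finset.univ.filter fun x : Fin n => x.val % 3 = 1).card ≤ (Finset.range k).card := by
      refine Finset.card_le_card_of_injOn (fun x => x.val / 3) ?_ ?_
      · intro x hx
        rw [Finset.mem_coe, Finset.mem_filter] at hx
        rw [Finset.mem_coe, Finset.mem_range]
        have := x.isLt
        simp only
        omega
      · intro x hx y hy h
        rw [Finset.mem_coe, Finset.mem_filter] at hx hy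
        simp only at h
        apply Fin.ext
        omega
    rwa [Finset.card_range] at h1
  have hSk : S.card ≤ k := (hmin _ hD).trans hDc
  have hmeet : ∀ j < k, ∃ x ∈ S, x.val / 3 = j := by
    intro j hj
    by_cases h : (⟨3 * j + 1, by omega⟩ : Fin n) ∈ S
    · exact ⟨_, h, by simp only; omega⟩
    · obtain ⟨u, hu, hadj⟩ := hdom _ h
      rw [SimpleGraph.pathGraph_adj] at hadj
      simp only at hadj
      exact ⟨u, hu, by omega⟩
  have hsub : Finset.range k ⊆ S.image (fun x : Fin n => x.val / 3) := by
    intro j hj
    obtain ⟨x, hx, h⟩ := hmeet j (Finset.mem_range.1 hj)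
    exact Finset.mem_image.2 ⟨x, hx, h⟩
  have hinj : Set.InjOn (fun x : Fin n => x.val / 3) (S : Set (Fin n)) := by
    rw [← Finset.card_image_iff]
    refine le_antisymm Finset.card_image_le ?_
    have := Finset.card_le_card hsub
    rw [Finset.card_range] at this
    omega
  have huni : ∀ x ∈ S, ∀ y ∈ S, x.val / 3 = y.val / 3 → x = y := fun x hx y hy h => hinj hx hy h
  refine ⟨hmeet, huni, ?_⟩
  have key : ∀ j : ℕ, ∀ x ∈ S, x.val = 3 * j + 2 → False := by
    intro j
    induction j with
    | zero =>
      intro x hx h
      by_cases h0 : (⟨0, by omega⟩ : Fin n) ∈ S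
      · have := congrArg Fin.val (huni _ h0 _ hx (by simp only; omega))
        simp only at this
        omega
      · obtain ⟨u, hu, hadj⟩ := hdom _ h0
        rw [SimpleGraph.pathGraph_adj] at hadj
        simp only at hadj
        have := congrArg Fin.val (huni _ hu _ hx (by omega))
        omega
    | succ j ih =>
      intro x hx h
      have hxl := x.isLt
      by_cases h0 : (⟨3 * j + 3, by omega⟩ : Fin n) ∈ S
      · have := congrArg Fin.val (huni _ h0 _ hx (by simp only; omega))
        simp only at this
        omega
      · obtain ⟨u, hu, hadj⟩ := hdom _ h0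
        rw [SimpleGraph.pathGraph_adj] at hadj
        simp only at hadj
        rcases hadj with hadj | hadj
        · exact ih u hu (by omega)
        · have := congrArg Fin.val (huni _ hu _ hx (by omega))
          omega
  intro x hx h
  exact key (x.val / 3) x hx (by omega)

end Pool.Agent.helper91.SI
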